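import Pool.Agent.U110.IsoNeg

/-!
For every `d ≥ 2` there is an LCL problem such that the shift graph of `ℤ^d` has a Baire measurable
solution but no Borel solution, and not even a measurable one.
-/

set_option autoImplicit false

namespace Pool.Agent.Results.MP_eb515b_lc.BaireNotBorel

open Pool.Agent.U110.Iso

/-- For every `d ≥ 2` there is an LCL problem (labelled balls of radius `r` up to isomorphism) such
that the shift graph on the free part of `2^(ℤ^d)` admits a Baire measurable solution but neither a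
Borel solution nor a measurable one. -/
theorem result (d : ℕ) (hd : 2 ≤ d) :
    ∃ Q : LCL, BaireSol d Q ∧ ¬ BorelSol d Q ∧ ¬ MeasurableSol d Q := by
  obtain ⟨k0, ⟨e'⟩⟩ : ∃ k0, Nonempty (Fin k0 ≃ Pool.Agent.W927.BM.Lab) :=
    ⟨_, ⟨(Fintype.equivFin Pool.Agent.W927.BM.Lab).symm⟩⟩
  obtain ⟨k, ⟨e⟩⟩ : ∃ k, Nonempty
      (Fin k ≃ Fin ((DF d).card + 1) × (Dir d → Fin ((DF d).card + 1)) × Fin k0) :=
    ⟨_, ⟨(Fintype.equivFin _).symm⟩⟩
  obtain ⟨m, hm⟩ := B_of_finset (Pool.Agent.W927.BM.winN hd)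
  have hm' : ∀ w ∈ Pool.Agent.W927.BM.winN hd, w ∈ B d (m + 2) := fun w hw =>
    B_mono (by omega) (hm w hw)
  exact ⟨prob e (QA hd e') m, baire_A e hd e' m, not_borel_A e hd e' hm',
    not_measurable_A e hd e' hm'⟩

end Pool.Agent.Results.MP_eb515b_lc.BaireNotBorel
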