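import Pool.Agent.U110.IsoNeg

/-!
For every `d ≥ 2` there is an LCL problem such that the shift graph of `ℤ^d` has a measurable
solution but no Borel solution.
-/

set_option autoImplicit false

namespace Pool.Agent.Results.MP_eb515b_lc.MeasurableNotBorel

open Pool.Agent.U110.Iso

/-- For every `d ≥ 2` there is an LCL problem (labelled balls of radius `r` up to isomorphism) such
that the shift graph on the free part of `2^(ℤ^d)` admits a measurable solution but no Borel one. -/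
theorem result (d : ℕ) (hd : 2 ≤ d) : ∃ Q : LCL, MeasurableSol d Q ∧ ¬ BorelSol d Q := by
  obtain ⟨k0, ⟨e'⟩⟩ : ∃ k0, Nonempty (Fin k0 ≃ Pool.Agent.W927.Lab) :=
    ⟨_, ⟨(Fintype.equivFin Pool.Agent.W927.Lab).symm⟩⟩
  obtain ⟨k, ⟨e⟩⟩ : ∃ k, Nonempty
      (Fin k ≃ Fin ((DF d).card + 1) × (Dir d → Fin ((DF d).card + 1)) × Fin k0) :=
    ⟨_, ⟨(Fintype.equivFin _).symm⟩⟩
  let e0 : Fin d → ℤ := Pool.Agent.W927.BM.emb hd 1 0
  let e1 : Fin d → ℤ := Pool.Agent.W927.BM.emb hd 0 1
  have he : ∀ i j : ℤ, i • e0 + j • e1 = Pool.Agent.W927.BM.emb hd i j := by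
    intro i j
    funext z
    simp only [e0, e1, Pool.Agent.W927.BM.emb, Pi.add_apply, Pi.smul_apply, Pi.single_apply]
    split_ifs <;> simp
  have hi : ∀ i j : ℤ, i • e0 + j • e1 = 0 → i = 0 ∧ j = 0 := fun i j h =>
    Pool.Agent.W927.BM.emb_eq_zero hd (by rw [← he]; exact h)
  obtain ⟨m, hm⟩ := B_of_finset ({0, -e0, -e1} : Finset (Fin d → ℤ))
  refine ⟨prob e (QB e' e0 e1) m, measure_B e e' hi m, not_borel_B e e' (by omega) ?_ ?_ ?_⟩
  · intro h
    have := (hi 1 0 (by simp [h])).1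
    omega
  · intro h
    have := (hi 0 1 (by simp [h])).2
    omega
  · intro w hw
    exact B_mono (by omega) (hm w (by simpa using hw))

end Pool.Agent.Results.MP_eb515b_lc.MeasurableNotBorel
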